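import Pool.Agent.L7h44.CM.Stm

/-!
# Project CM, explicit version: `S_f(x) = O(x^(27/82))` for all newforms with complex multiplication

Statements with complete proofs in the docstrings (helper27, for helper44's project CM).
`ex x = exp(2 π i x)`. The classical fifth derivative test `L λ^(1/30) + L^(7/8) λ^(-1/30)` is applied
on the lines in one of the directions `(1, r)`, `r < 6`, in small cells.
-/

set_option autoImplicit false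

namespace Pool.Agent.L7h27.CM

open Finset
open Pool.Agent.L7h72.HB (ex)
open Pool.Agent.L7h44.CM (pt IsCM)

/-! ### The derivative test -/

/-- The `k`-th derivative test with the exponents `κ`, `β`: `φ k` is the `k`-th derivative of `φ 0`,
between `lam` and `h * lam` up to the sign `sg`; the `L + 1` points `a, ..., a + L`. -/
def KT (k : ℕ) (κ β : ℝ) : Prop := ∀ h : ℝ, 1 ≤ h → ∃ C : ℝ, 0 < C ∧
  ∀ (L : ℕ) (lam a sg : ℝ) (φ : ℕ → ℝ → ℝ), 0 < lam → |sg| = 1 →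
    (∀ m < k, ∀ t ∈ Set.Icc a (a + L), HasDerivAt (φ m) (φ (m + 1) t) t) →
    (∀ t ∈ Set.Icc a (a + L), lam ≤ sg * φ k t ∧ sg * φ k t ≤ h * lam) →
    ‖∑ n ∈ range (L + 1), ex (φ 0 (a + n))‖ ≤
      C * (((L : ℝ) + 1) * lam ^ κ + ((L : ℝ) + 1) ^ (1 - β) * lam ^ (-κ))

/-- [K2] The second derivative test. Proof. If `lam > 1/16` it is trivial (`C ≥ 4`). WLOG `sg = 1`
(conjugate the sum, `ex (-x) = conj (ex x)`). `φ 1` is increasing on the interval, with values in an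
interval of length `≤ h lam L`. Put `δ = √lam ≤ 1/4`. For each of the at most `h lam L + 2`
integers `ν` near this interval: the `n` with `|φ 1 (a + n) - ν| < δ` are the integers of an interval of
length `≤ 2 δ / lam`, at most `2 δ / lam + 1` of them (trivial bound); the `n` with
`ν + δ ≤ φ 1 (a + n) ≤ ν + 1 - δ` are the integers of an interval, on which `φ 0 - ν t` satisfies
Kusmin-Landau (`Pool.Agent.H469R2.NK.kusmin_landau_mono`, differences between `δ` and `1 - δ`,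
by the mean value theorem; drop one point at the end of the interval if needed), bound `C / δ`.
Total `(h lam L + 2) (2 lam^(-1/2) + 1 + C lam^(-1/2)) ≤ C' (L lam^(1/2) + lam^(-1/2))`. -/
def S_K2 : Prop := KT 2 (1 / 2) 1

/-- [STEP] One step of Weyl - van der Corput. Proof. Put `N = L + 1`. If `lam ≥ 1` it is trivial. Put
`K = lam ^ (-κ / (1 + κ)) ≥ 1`, `H = ⌈K⌉₊`, `K ≤ H ≤ 2 K`. If `H > N`: trivial, since
`N ^ (1 - β / 2) * lam ^ (-κ') = N ^ (1 - β / 2) * K ^ (1 / 2) ≥ N ^ (1 / 2) * (N / 2) ^ (1 / 2)`, where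
`κ' = κ / (2 (1 + κ))`. If `H ≤ N`: `Pool.Agent.H469R2.NK.vdcH` with `z n = ex (φ 0 (a + n))`, `L := N`,
and the hypothesis for `φ m (t + l) - φ m t`, `1 ≤ l < H`, on `[a, a + L - l]` with `l * lam` for `lam`
(mean value theorem for `φ k`):
`H |S|² ≤ 2 N (N + 2 ∑_(1 ≤ l < H) C (N (l lam)^κ + N^(1 - β) (l lam)^(-κ)))`, and
`∑_(1 ≤ l < H) l^κ ≤ H^(1+κ)`, `∑_(1 ≤ l < H) l^(-κ) ≤ 4 H^(1-κ)` (`κ ≤ 1/2`), so
`|S|² ≤ C' (N² / H + N² (H lam)^κ + N^(2-β) (H lam)^(-κ)) ≤ C'' (N² lam^(2κ') + N^(2-β) lam^(-2κ'))`,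
as `1 / H ≤ lam^(2κ')`, `(H lam)^κ ≤ 2 lam^(2κ')`, `(H lam)^(-κ) ≤ lam^(-2κ')`. -/
def S_STEP : Prop := ∀ (k : ℕ) (κ β : ℝ), 1 ≤ k → 0 < κ → κ ≤ 1 / 2 → 0 ≤ β → β ≤ 1 → KT k κ β →
  KT (k + 1) (κ / (2 * (1 + κ))) (β / 2)

/-- [K5] three steps -/
def S_K5 : Prop := KT 5 (1 / 30) (1 / 8)

/-! ### The square root of a quadratic polynomial -/

/-- [DER] The derivatives of `√q`, `q = A t² + B t + C`. With `E = 4 A C - B²`, `q' = 2 A t + B`,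
`4 A q = E + q' ^ 2`: `φ₁ = q' / 2 * q^(-1/2)`, `φ₂ = E/4 q^(-3/2)`, `φ₃ = -3/8 E q' q^(-5/2)`,
`φ₄ = -3/8 E (2 A q^(-5/2) - 5/2 q'^2 q^(-7/2))`, `φ₅ = -3/8 E (-15 A q' q^(-7/2) + 35/4 q'^3 q^(-9/2))
= 15/32 E q' (3 E - 4 q'^2) q^(-9/2)`. -/
def S_DER : Prop := ∃ φ : ℝ → ℝ → ℝ → ℕ → ℝ → ℝ, ∀ A B C t : ℝ, 0 < A * t ^ 2 + B * t + C →
  φ A B C 0 t = √(A * t ^ 2 + B * t + C) ∧
  (∀ m < 5, HasDerivAt (φ A B C m) (φ A B C (m + 1) t) t) ∧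
  φ A B C 5 t = 15 / 32 * (4 * A * C - B ^ 2) * (2 * A * t + B) *
    (3 * (4 * A * C - B ^ 2) - 4 * (2 * A * t + B) ^ 2) * (A * t ^ 2 + B * t + C) ^ (-(9 / 2) : ℝ)

/-- the quadratic form -/
def qf (a b c x y : ℝ) : ℝ := a * x ^ 2 + b * x * y + c * y ^ 2

/-- `B (z, e)` for `e = (1, r)` -/
def bf (a b c : ℝ) (r : ℕ) (x y : ℝ) : ℝ := 2 * a * x + b * (y + r * x) + 2 * c * r * y

/-- the numerator of the fifth derivative in the direction `(1, r)` -/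
def PP (a b c : ℝ) (r : ℕ) (x y : ℝ) : ℝ :=
  (y - r * x) ^ 2 * bf a b c r x y *
    (3 * (4 * a * c - b ^ 2) * (y - r * x) ^ 2 - 4 * bf a b c r x y ^ 2)

/-- [GEO] Good directions. Proof. For `(x, y) ≠ 0` the real polynomial
`r ↦ PP a b c r x y` is not zero: its factors are `y - r x`, `2 a x + b y + r (b x + 2 c y)` (not zero
since `4 a c - b² ≠ 0`) and `√(3 D) (y - r x) ∓ 2 (2 a x + b y + r (b x + 2 c y))`, `D = 4 a c - b²`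
(determinant `∓ 2 * 7 D` up to factors: if both coefficients vanish then `√(3D) x = ∓ 2 (b x + 2 c y)`,
`√(3D) y = ± 2 (2 a x + b y)`, so `(3 D + 4 D) (x, y) = 0`, the square of the matrix
`[[b, 2 c], [-2 a, -b]]` being `- D`). Its degree is at most `5`, so one of the six values `r < 6` is not
zero. The set `K = {1/4 ≤ qf ≤ 1}` is compact (`qf ≥ μ (x² + y²)`), the sets
`{sg * PP r > g} ∩ {1/16 < qf < 4}` (`r < 6`, `sg = ±1`, `g = 1/n`) are open and cover `K`: finitely many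
suffice; Lebesgue's number lemma (`lebesgue_number_lemma_of_metric`, sup metric of `ℝ × ℝ`). The upper
bound for `sg * PP r` by continuity on a bounded set (make `g` smaller). -/
def S_GEO : Prop := ∀ a b c : ℝ, 0 < a → b ^ 2 < 4 * a * c → ∃ g η : ℝ, 0 < g ∧ 0 < η ∧ η ≤ 1 ∧
  ∀ x0 y0 : ℝ, 1 / 4 ≤ qf a b c x0 y0 → qf a b c x0 y0 ≤ 1 → ∃ (r : ℕ) (sg : ℝ), r < 6 ∧ |sg| = 1 ∧
    ∀ x y : ℝ, |x - x0| ≤ η → |y - y0| ≤ η →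
      g ≤ sg * PP a b c r x y ∧ sg * PP a b c r x y ≤ g⁻¹ ∧
      1 / 16 ≤ qf a b c x y ∧ qf a b c x y ≤ 4

/-! ### Lines, cells, discs -/

/-- the bound -/
noncomputable def G (X θ : ℝ) : ℝ :=
  X ^ 2 * (|θ| * X ^ (-4 : ℝ)) ^ (1 / 30 : ℝ) +
    X ^ (15 / 8 : ℝ) * (|θ| * X ^ (-4 : ℝ)) ^ (-(1 / 30) : ℝ)

/-- the summand -/
noncomputable def tm (l : ℕ) (ω ω' : ℂ) (θ : ℝ) (p : ℤ × ℤ) : ℂ :=
  (pt ω ω' p / (‖pt ω ω' p‖ : ℂ)) ^ l * ex (θ * ‖pt ω ω' p‖)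

/-- [LINE] Sums on a line. -/
def S_LINE : Prop := ∀ (l q : ℕ) (ω ω' : ℂ) (g : ℝ), 0 < q → ((starRingEnd ℂ) ω * ω').im ≠ 0 → 0 < g →
  ∃ C : ℝ, 0 < C ∧ ∀ (X θ sg : ℝ) (r L : ℕ) (p : ℤ × ℤ), 1 ≤ X → 1 ≤ |θ| → r < 6 → |sg| = 1 →
    (L : ℝ) ≤ 2 * X →
    (∀ t ∈ Set.Icc (0 : ℝ) L, ∀ x y : ℝ, x = (p.1 + q * t) / X → y = (p.2 + r * q * t) / X →
      g ≤ sg * PP (‖ω‖ ^ 2) (2 * ((starRingEnd ℂ) ω * ω').re) (‖ω'‖ ^ 2) r x y ∧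
      sg * PP (‖ω‖ ^ 2) (2 * ((starRingEnd ℂ) ω * ω').re) (‖ω'‖ ^ 2) r x y ≤ g⁻¹ ∧
      1 / 16 ≤ qf (‖ω‖ ^ 2) (2 * ((starRingEnd ℂ) ω * ω').re) (‖ω'‖ ^ 2) x y ∧
      qf (‖ω‖ ^ 2) (2 * ((starRingEnd ℂ) ω * ω').re) (‖ω'‖ ^ 2) x y ≤ 4) →
    ‖∑ n ∈ range (L + 1), tm l ω ω' θ (p.1 + q * n, p.2 + r * q * n)‖ ≤
      C * (X * (|θ| * X ^ (-4 : ℝ)) ^ (1 / 30 : ℝ) +
        X ^ (7 / 8 : ℝ) * (|θ| * X ^ (-4 : ℝ)) ^ (-(1 / 30) : ℝ))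

/-- [CELL] Sums on a cell. -/
def S_CELL : Prop := ∀ (l q : ℕ) (ω ω' : ℂ), 0 < q → ((starRingEnd ℂ) ω * ω').im ≠ 0 →
  ∃ η C : ℝ, 0 < η ∧ η ≤ 1 ∧ 0 < C ∧ ∀ (X θ x0 y0 lo1 lo2 Y : ℝ) (u0 v0 : ℤ) (S : Finset (ℤ × ℤ)),
    1 ≤ X → 1 ≤ |θ| → X / 2 ≤ ‖(x0 : ℂ) * ω + (y0 : ℂ) * ω'‖ → ‖(x0 : ℂ) * ω + (y0 : ℂ) * ω'‖ ≤ X →
    lo1 ≤ x0 → x0 < lo1 + η * X → lo2 ≤ y0 → y0 < lo2 + η * X →
    (∀ p : ℤ × ℤ, p ∈ S ↔ lo1 ≤ p.1 ∧ p.1 < lo1 + η * X ∧ lo2 ≤ p.2 ∧ p.2 < lo2 + η * X ∧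
      (q : ℤ) ∣ p.1 - u0 ∧ (q : ℤ) ∣ p.2 - v0 ∧ ‖pt ω ω' p‖ ≤ Y) →
    ‖∑ p ∈ S, tm l ω ω' θ p‖ ≤ C * G X θ

/-- [DISC] Sums on a disc, from [CELL]. Proof. Induction on `n`, for `X < 2 ^ n`: for `X < 2` trivial
(boundedly many points, `X ^ 2 * (|θ| X ^ (-4)) ^ (1/30) ≥ 1`). For `X ≥ 2` the points with
`‖pt p‖ ≤ X / 2` (`G (X / 2) θ ≤ 3/4 * G X θ`), and the points with `X / 2 < ‖pt p‖ ≤ X`: these are
grouped by the key `(⌊p.1 / (η X)⌋, ⌊p.2 / (η X)⌋, p.1 % q, p.2 % q)`, boundedly many keys, since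
`|p.1|, |p.2| ≤ K X`; for each key which occurs the group is the difference of two sets of [CELL]
(`Y = X` and `Y = X / 2`, `lo1 = i η X`, `lo2 = j η X`, `(x0, y0)` a point of the group), and `c` is constant
on it. -/
def S_DISC : Prop := ∀ (l q : ℕ) (ω ω' : ℂ) (c : ℤ → ℤ → ℂ), 0 < q → ((starRingEnd ℂ) ω * ω').im ≠ 0 →
  (∀ u v : ℤ, c (u + q) v = c u v ∧ c u (v + q) = c u v) →
  ∃ C : ℝ, 0 < C ∧ ∀ (X θ : ℝ) (S : Finset (ℤ × ℤ)), 1 ≤ X → 1 ≤ |θ| →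
    (∀ p : ℤ × ℤ, p ∈ S ↔ p ≠ 0 ∧ ‖pt ω ω' p‖ ≤ X) →
    ‖∑ p ∈ S, c p.1 p.2 * tm l ω ω' θ p‖ ≤ C * G X θ

/-- [SUM27] from [DISC] with `X = √M`: exchange of (finite) sums, every `p ≠ 0` with `‖pt p‖ ≤ √M` has
`‖pt p‖ ^ 2 = n` for exactly one `n ∈ [1, M]`, and `√n = ‖pt p‖`; the support of each `tsum` is finite
(`L7h44.CM.S_CNT`: `{p | ‖pt p‖ ≤ X}` is finite). `G √M θ` is the bound below. -/
def S_SUM27 : Prop := ∀ (l : ℕ) (lam : ℕ → ℂ), IsCM l lam → ∃ C : ℝ, 0 < C ∧ ∀ (M : ℕ) (θ : ℝ), 1 ≤ M →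
  1 ≤ |θ| → ‖∑ n ∈ Icc 1 M, lam n * ex (θ * √(n : ℝ))‖ ≤
    C * ((M : ℝ) ^ (14 / 15 : ℝ) * |θ| ^ (1 / 30 : ℝ) + (M : ℝ) ^ (241 / 240 : ℝ) * |θ| ^ (-(1 / 30) : ℝ))

end Pool.Agent.L7h27.CM
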